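import Mathlib

set_option autoImplicit false

open Finset

namespace Pool.Agent.Results.MP_199736_pr.MonotoneQ2

/-- Total variation distance: the maximum over events of the difference of the masses. -/
noncomputable def tv {Ω : Type} [Fintype Ω] (μ ν : Ω → ℝ) : ℝ :=
  ⨆ A : Finset Ω, |∑ x ∈ A, μ x - ∑ x ∈ A, ν x|

/-- One-spin kernel: keep the spin with probability `s`, else resample it with bias `p`. -/
noncomputable def one (p s : ℝ) (a b : Bool) : ℝ :=
  (if a = b then s else 0) + (1 - s) * (if b then p else 1 - p)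

noncomputable def PP (t : ℝ) : Matrix (Bool × Bool) (Bool × Bool) ℝ := fun a b =>
  one (3 / 4) (Real.exp (-t)) a.1 b.1 * one (1 / 4) (Real.exp (-t)) a.2 b.2

lemma sum_sub (A : Finset (Bool × Bool)) (f : Bool × Bool → ℝ) :
    ∑ x ∈ A, f x = (if (false, false) ∈ A then f (false, false) else 0) +
      (if (false, true) ∈ A then f (false, true) else 0) +
      (if (true, false) ∈ A then f (true, false) else 0) +
      (if (true, true) ∈ A then f (true, true) else 0) := by
  have : ∑ x ∈ A, f x = ∑ x, if x ∈ A then f x else 0 := by simp [Finset.sum_ite_mem]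
  rw [this, Fintype.sum_prod_type]
  simp only [Fintype.sum_bool]
  ring

theorem result :
    ∃ (P : ℝ → Matrix (Bool × Bool) (Bool × Bool) ℝ) (π : Bool × Bool → ℝ) (x y : Bool × Bool),
      Continuous P ∧ P 0 = 1 ∧ (∀ s t : ℝ, P (s + t) = P s * P t) ∧
      (∀ t : ℝ, 0 < t → ∀ a b, 0 < P t a b) ∧ (∀ (t : ℝ) a, ∑ b, P t a b = 1) ∧
      (∀ a, 0 < π a) ∧ ∑ a, π a = 1 ∧ (∀ (t : ℝ) a b, π a * P t a b = π b * P t b a) ∧
      (∀ t : ℝ, 0 ≤ t → ∀ a b, a ≤ b → ∀ A : Finset (Bool × Bool),
        IsUpperSet (A : Set (Bool × Bool)) → ∑ z ∈ A, P t a z ≤ ∑ z ∈ A, P t b z) ∧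
      ∀ t : ℝ, 0 < t → tv (P t ⊤) (P t ⊥) < tv (P t x) (P t y) := by
  refine ⟨PP, fun a => (if a.1 then 3 / 4 else 1 / 4) * (if a.2 then 1 / 4 else 3 / 4),
    (true, false), (false, true), ?_, ?_, ?_, ?_, ?_, ?_, ?_, ?_, ?_, ?_⟩
  · refine continuous_pi fun a => continuous_pi fun b => ?_
    obtain ⟨a1, a2⟩ := a
    obtain ⟨b1, b2⟩ := b
    cases a1 <;> cases a2 <;> cases b1 <;> cases b2 <;> simp [PP, one] <;> fun_prop
  · ext ⟨a1, a2⟩ ⟨b1, b2⟩
    cases a1 <;> cases a2 <;> cases b1 <;> cases b2 <;> simp [PP, one]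
  · intro s t
    ext ⟨a1, a2⟩ ⟨b1, b2⟩
    rw [Matrix.mul_apply, Fintype.sum_prod_type]
    simp only [Fintype.sum_bool, PP, neg_add, Real.exp_add]
    cases a1 <;> cases a2 <;> cases b1 <;> cases b2 <;> simp [one] <;> ring
  · rintro t ht ⟨a1, a2⟩ ⟨b1, b2⟩
    have h0 : 0 < Real.exp (-t) := Real.exp_pos _
    have h1 : 0 < 1 - Real.exp (-t) := by
      have : Real.exp (-t) < 1 := Real.exp_lt_one_iff.2 (by linarith)
      linarith
    cases a1 <;> cases a2 <;> cases b1 <;> cases b2 <;> simp only [PP, one] <;> norm_num <;>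
      positivity
  · rintro t ⟨a1, a2⟩
    rw [Fintype.sum_prod_type]
    simp only [Fintype.sum_bool, PP]
    cases a1 <;> cases a2 <;> simp [one] <;> ring
  · rintro ⟨a1, a2⟩
    cases a1 <;> cases a2 <;> norm_num
  · rw [Fintype.sum_prod_type]
    simp only [Fintype.sum_bool]
    norm_num
  · rintro t ⟨a1, a2⟩ ⟨b1, b2⟩
    cases a1 <;> cases a2 <;> cases b1 <;> cases b2 <;> simp [PP, one] <;> ring
  · rintro t ht ⟨a1, a2⟩ ⟨b1, b2⟩ hab A hA
    have h0 : 0 < Real.exp (-t) := Real.exp_pos _
    have h1 : Real.exp (-t) ≤ 1 := Real.exp_le_one_iff.2 (by linarith)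
    have u1 : (false, false) ∈ A → (false, true) ∈ A := fun h => hA (by decide) h
    have u2 : (false, false) ∈ A → (true, false) ∈ A := fun h => hA (by decide) h
    have u3 : (false, true) ∈ A → (true, true) ∈ A := fun h => hA (by decide) h
    have u4 : (true, false) ∈ A → (true, true) ∈ A := fun h => hA (by decide) h
    rw [sum_sub, sum_sub]
    generalize hs : Real.exp (-t) = s at h0 h1
    have h2 : 0 ≤ s * (1 - s) := mul_nonneg h0.le (by linarith)
    by_cases c1 : (false, false) ∈ A <;> by_cases c2 : (false, true) ∈ A <;>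
      by_cases c3 : (true, false) ∈ A <;> by_cases c4 : (true, true) ∈ A <;>
      first
        | (exfalso; tauto)
        | (cases a1 <;> cases a2 <;> cases b1 <;> cases b2 <;>
            first
              | (exfalso; revert hab; decide)
              | (simp only [c1, c2, c3, c4, if_true, if_false, PP, one, hs]; norm_num <;>
                  nlinarith))
  · intro t ht
    have h0 : 0 < Real.exp (-t) := Real.exp_pos _
    have h1 : Real.exp (-t) < 1 := Real.exp_lt_one_iff.2 (by linarith)
    have hup : tv (PP t ⊤) (PP t ⊥) ≤ Real.exp (-t) := by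
      refine ciSup_le fun A => ?_
      rw [sum_sub, sum_sub]
      have e1 : (⊤ : Bool × Bool) = (true, true) := rfl
      have e2 : (⊥ : Bool × Bool) = (false, false) := rfl
      rw [e1, e2]
      generalize hs : Real.exp (-t) = s at h0 h1
      have h2 : 0 ≤ s * (1 - s) := mul_nonneg h0.le (by linarith)
      rw [abs_le]
      by_cases c1 : (false, false) ∈ A <;> by_cases c2 : (false, true) ∈ A <;>
        by_cases c3 : (true, false) ∈ A <;> by_cases c4 : (true, true) ∈ A <;>
        simp only [c1, c2, c3, c4, if_true, if_false, PP, one, hs] <;> norm_num <;>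
        (try constructor) <;> nlinarith
    refine lt_of_le_of_lt hup (lt_of_lt_of_le ?_ (le_ciSup (f := fun A : Finset (Bool × Bool) =>
      |∑ z ∈ A, PP t (true, false) z - ∑ z ∈ A, PP t (false, true) z|)
      (Finite.bddAbove_range _) {(true, false)}))
    refine lt_of_lt_of_le ?_ (le_abs_self _)
    simp only [sum_singleton, PP, one]
    norm_num
    nlinarith

end Pool.Agent.Results.MP_199736_pr.MonotoneQ2
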